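import Mathlib
import Pool.Agent.Lib.MP_5ffd28_gt.Clopen

set_option autoImplicit false

namespace Pool.Agent.Results.MP_5ffd28_gt.Clopen

/-- A Tychonoff space with infinitely many clopen subsets satisfies the conclusion of Q1. -/
theorem result :
    ∀ (X : Type) [TopologicalSpace X] [T35Space X],
      {U : Set X | IsClopen U}.Infinite →
      ∃ S : Set ℝ, S ⊆ Set.Icc (0 : ℝ) 1 ∧ S.Infinite ∧
        ∃ f : FreeAbelianGroup X →+ FreeAbelianGroup S,
          Function.Surjective f ∧
          @Continuous (FreeAbelianGroup X) (FreeAbelianGroup S)
            (sInf {t : TopologicalSpace (FreeAbelianGroup X) |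
              @IsTopologicalAddGroup (FreeAbelianGroup X) t _ ∧
              @Continuous X (FreeAbelianGroup X) _ t FreeAbelianGroup.of})
            (sInf {t : TopologicalSpace (FreeAbelianGroup S) |
              @IsTopologicalAddGroup (FreeAbelianGroup S) t _ ∧
              @Continuous S (FreeAbelianGroup S) _ t FreeAbelianGroup.of})
            f ∧
          @IsOpenMap (FreeAbelianGroup X) (FreeAbelianGroup S)
            (sInf {t : TopologicalSpace (FreeAbelianGroup X) |
              @IsTopologicalAddGroup (FreeAbelianGroup X) t _ ∧
              @Continuous X (FreeAbelianGroup X) _ t FreeAbelianGroup.of})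
            (sInf {t : TopologicalSpace (FreeAbelianGroup S) |
              @IsTopologicalAddGroup (FreeAbelianGroup S) t _ ∧
              @Continuous S (FreeAbelianGroup S) _ t FreeAbelianGroup.of})
            f := by
  intro X _ _ h
  exact Pool.Agent.Lib.MP_5ffd28_gt.concl_of_infinite_clopen h

end Pool.Agent.Results.MP_5ffd28_gt.Clopen
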