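import Pool.Agent.Lib.MP_5ffd28_gt.CR.Final
import Pool.Agent.Lib.MP_5ffd28_gt.CR.Neg

namespace Pool.Agent.Results.MP_5ffd28_gt.Independent

open Pool.Agent.Shared.Forcing Pool.Agent.Lib.MP_23bd8d_gt Pool.Agent.Lib.MP_5ffd28_gt.Cohen

/-- The question is independent of ZFC. In one model every infinite Tychonoff space `(X, T)` has
an infinite subspace `S` of a fixed closed interval `[a, b]` of the line and an open continuous
homomorphism of `A(X)` onto `A(S)`. In another model, where all free abelian topological groups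
exist, some infinite Tychonoff space has no such homomorphism onto `A(S)` for any subspace `S` of
the line with at least two points. -/
theorem result :
    (∃ (M : Type 2) (E : M → M → Prop), ModelZFC E ∧ ∃ w R L O a b : M,
      IsOmega E w ∧ IsReal E w R L ∧ SubTop E R L R O ∧ E a R ∧ E b R ∧ Maps E L a b ∧
      ∀ X T, IsTop E X T → Tychonoff E X T R O → Inj E w X →
        ∃ S TS G A TG i H B TH j h, (∀ s, E s S → E s R ∧ ¬ Maps E L s a ∧ ¬ Maps E L b s) ∧
          Inj E w S ∧ SubTop E R L S TS ∧ Free E X T G A TG i ∧ Free E S TS H B TH j ∧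
          Cts E h G TG H TH ∧ Additive E h A B ∧ (∀ y, E y H → ∃ x, Maps E h x y) ∧
          OpenMap E h TG TH) ∧
    ∃ (M : Type 2) (E : M → M → Prop), ModelZFC E ∧
      (∀ X T, IsTop E X T → ∃ G A TG i, Free E X T G A TG i) ∧ ∃ w R L O X T : M,
      IsOmega E w ∧ IsReal E w R L ∧ SubTop E R L R O ∧ IsTop E X T ∧ Tychonoff E X T R O ∧
      Inj E w X ∧ ∀ S TS G A TG i H B TH j h, Sub E S R → (∃ s t, E s S ∧ E t S ∧ s ≠ t) →
        SubTop E R L S TS → Free E X T G A TG i → Free E S TS H B TH j → Cts E h G TG H TH →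
        Additive E h A B → (∀ y, E y H → ∃ x, Maps E h x y) → ¬ OpenMap E h TG TH :=
  ⟨Pool.Agent.Lib.MP_5ffd28_gt.CR.model, Pool.Agent.Lib.MP_5ffd28_gt.CR.model_neg⟩

end Pool.Agent.Results.MP_5ffd28_gt.Independent
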