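import Mathlib
import Pool.Agent.Lib.MP_5ffd28_gt.Main

set_option autoImplicit false

namespace Pool.Agent.Results.MP_5ffd28_gt.LindelofSigma

/-- A Tychonoff space with an infinite open or connected subset covered by bounded sets with a countable network modulo the cover satisfies the conclusion of Q1. -/
theorem result :
    ∀ (X : Type) [TopologicalSpace X] [T35Space X],
      (∃ (Y : Set X) (𝒦 𝒩 : Set (Set X)), Y.Infinite ∧ (IsOpen Y ∨ IsPreconnected Y) ∧
        Y ⊆ ⋃₀ 𝒦 ∧ 𝒩.Countable ∧
        (∀ K ∈ 𝒦, ∀ O : ℕ → Set X, (∀ n, IsOpen (O n)) → LocallyFinite O →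
          {n | (O n ∩ K).Nonempty}.Finite) ∧
        ∀ K ∈ 𝒦, ∀ O : Set X, IsOpen O → K ⊆ O → ∃ N ∈ 𝒩, K ⊆ N ∧ N ⊆ O) →
      ∃ S : Set ℝ, S ⊆ Set.Icc (0 : ℝ) 1 ∧ S.Infinite ∧
        ∃ f : FreeAbelianGroup X →+ FreeAbelianGroup S,
          Function.Surjective f ∧
          @Continuous (FreeAbelianGroup X) (FreeAbelianGroup S)
            (sInf {t : TopologicalSpace (FreeAbelianGroup X) |
              @IsTopologicalAddGroup (FreeAbelianGroup X) t _ ∧
              @Continuous X (FreeAbelianGroup X) _ t FreeAbelianGroup.of})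
            (sInf {t : TopologicalSpace (FreeAbelianGroup S) |
              @IsTopologicalAddGroup (FreeAbelianGroup S) t _ ∧
              @Continuous S (FreeAbelianGroup S) _ t FreeAbelianGroup.of})
            f ∧
          @IsOpenMap (FreeAbelianGroup X) (FreeAbelianGroup S)
            (sInf {t : TopologicalSpace (FreeAbelianGroup X) |
              @IsTopologicalAddGroup (FreeAbelianGroup X) t _ ∧
              @Continuous X (FreeAbelianGroup X) _ t FreeAbelianGroup.of})
            (sInf {t : TopologicalSpace (FreeAbelianGroup S) |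
              @IsTopologicalAddGroup (FreeAbelianGroup S) t _ ∧
              @Continuous S (FreeAbelianGroup S) _ t FreeAbelianGroup.of})
            f := by
  rintro X _ _ ⟨Y, 𝒦, 𝒩, h1, h2, h3, h4, h5, h6⟩
  exact Pool.Agent.Lib.MP_5ffd28_gt.concl_of_sigma Y h1 h2 𝒦 𝒩 h3 h4 h5 h6

end Pool.Agent.Results.MP_5ffd28_gt.LindelofSigma
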