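import Mathlib
import Pool.Agent.Lib.MP_5ffd28_gt.Main

set_option autoImplicit false

namespace Pool.Agent.Results.MP_5ffd28_gt.WeakQ

/-- A Tychonoff space with a decreasing or disjoint sequence of infinite open sets admitting no locally finite open selection satisfies the conclusion of Q1. -/
theorem result :
    ∀ (X : Type) [TopologicalSpace X] [T35Space X],
      (∃ W : ℕ → Set X, (∀ n, IsOpen (W n)) ∧ (∀ n, (W n).Infinite) ∧
        (Antitone W ∨ ∀ m n, m ≠ n → Disjoint (W m) (W n)) ∧
        ∀ O : ℕ → Set X, (∀ n, IsOpen (O n) ∧ (O n).Nonempty ∧ O n ⊆ W n) →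
          ¬ LocallyFinite O) →
      ∃ S : Set ℝ, S ⊆ Set.Icc (0 : ℝ) 1 ∧ S.Infinite ∧
        ∃ f : FreeAbelianGroup X →+ FreeAbelianGroup S,
          Function.Surjective f ∧
          @Continuous (FreeAbelianGroup X) (FreeAbelianGroup S)
            (sInf {t : TopologicalSpace (FreeAbelianGroup X) |
              @IsTopologicalAddGroup (FreeAbelianGroup X) t _ ∧
              @Continuous X (FreeAbelianGroup X) _ t FreeAbelianGroup.of})
            (sInf {t : TopologicalSpace (FreeAbelianGroup S) |
              @IsTopologicalAddGroup (FreeAbelianGroup S) t _ ∧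
              @Continuous S (FreeAbelianGroup S) _ t FreeAbelianGroup.of})
            f ∧
          @IsOpenMap (FreeAbelianGroup X) (FreeAbelianGroup S)
            (sInf {t : TopologicalSpace (FreeAbelianGroup X) |
              @IsTopologicalAddGroup (FreeAbelianGroup X) t _ ∧
              @Continuous X (FreeAbelianGroup X) _ t FreeAbelianGroup.of})
            (sInf {t : TopologicalSpace (FreeAbelianGroup S) |
              @IsTopologicalAddGroup (FreeAbelianGroup S) t _ ∧
              @Continuous S (FreeAbelianGroup S) _ t FreeAbelianGroup.of})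
            f := by
  rintro X _ _ ⟨W, h1, h2, h3 | h3, h4⟩
  · exact Pool.Agent.Lib.MP_5ffd28_gt.concl_of_antitone W h1 h2 h3 h4
  · exact Pool.Agent.Lib.MP_5ffd28_gt.concl_of_disjoint W h1 h2 (fun m n h => h3 m n h) h4

end Pool.Agent.Results.MP_5ffd28_gt.WeakQ
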